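import Pool.Agent.H40.Semi.Spec

/-!
# The abstract perturbation theorem

`T(t) g = τ(g) e + e^{-t} U(t) exp(2 t N) (g - τ(g) e)` is a `C₀`-semigroup which is individually
eventually positive and has `s(A) ≤ 0 < ω₀(A)`.
-/

namespace Pool.Agent.H40.Pert

open Filter Topology MeasureTheory Set Pool.Agent.H21
open scoped NNReal ENNReal

variable {E : Type*} [NormedAddCommGroup E] [NormedSpace ℂ E] [CompleteSpace E]
variable {U : ℝ≥0 → E →L[ℂ] E} {N : E →L[ℂ] E} {e : E} {τ : E →L[ℂ] ℂ}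

/-- The projection `τ(·) e`. -/
noncomputable def proj (τ : E →L[ℂ] ℂ) (e : E) : E →L[ℂ] E := τ.smulRight e

omit [CompleteSpace E] in
@[simp] lemma proj_apply (x : E) : proj τ e x = τ x • e := rfl

/-- The semigroup of the theorem. -/
noncomputable def TT (U : ℝ≥0 → E →L[ℂ] E) (N : E →L[ℂ] E) (e : E) (τ : E →L[ℂ] ℂ) :
    ℝ≥0 → E →L[ℂ] E :=
  fun t => proj τ e + rescale 1 (pert U N) t * (1 - proj τ e)

lemma TT_apply (t : ℝ≥0) (x : E) :
    TT U N e τ t x = τ x • e + rescale 1 (pert U N) t (x - τ x • e) := rfl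

section basic

variable (hNe : N e = 0) (hNτ : ∀ x, τ (N x) = 0)

include hNe in
lemma pow_e (n : ℕ) (hn : n ≠ 0) : (N ^ n) e = 0 := by
  obtain ⟨m, rfl⟩ := Nat.exists_eq_succ_of_ne_zero hn
  rw [pow_succ]
  show (N ^ m) (N e) = 0
  rw [hNe, map_zero]

include hNτ in
lemma tau_pow (n : ℕ) (hn : n ≠ 0) (x : E) : τ ((N ^ n) x) = 0 := by
  obtain ⟨m, rfl⟩ := Nat.exists_eq_succ_of_ne_zero hn
  rw [pow_succ']
  exact hNτ _

include hNe in
lemma Ex_e (t : ℝ) : Ex N t e = e := by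
  have h := Ex_hasSum_apply N t e
  have h2 := hasSum_single (f := fun n : ℕ => (((2 * t) ^ n / n.factorial : ℝ) : ℂ) • (N ^ n) e) 0
    (fun n hn => by simp only [pow_e hNe n hn, smul_zero])
  have h3 := h.unique h2
  simpa using h3

include hNτ in
lemma tau_Ex (t : ℝ) (x : E) : τ (Ex N t x) = τ x := by
  have h := τ.hasSum (Ex_hasSum_apply N t x)
  have h2 := hasSum_single
    (f := fun n : ℕ => τ ((((2 * t) ^ n / n.factorial : ℝ) : ℂ) • (N ^ n) x)) 0
    (fun n hn => by simp only [map_smul, tau_pow hNτ n hn, smul_zero])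
  have h3 := h.unique h2
  simpa using h3

end basic

section semigroup

variable (hU : IsC0Semigroup U) (hUi : ∀ t x, ‖U t x‖ = ‖x‖)
  (hUN : ∀ t x, U t (N x) = N (U t x)) (hUe : ∀ t, U t e = e) (hUτ : ∀ t x, τ (U t x) = τ x)
  (hNe : N e = 0) (hNτ : ∀ x, τ (N x) = 0) (hτe : τ e = 1)

include hUe hNe in
lemma resc_e (t : ℝ≥0) : rescale 1 (pert U N) t e = (Real.exp (-(1 * t)) : ℂ) • e := by
  rw [rescale_apply]
  congr 1
  show U t (Ex N t e) = e
  rw [Ex_e hNe, hUe]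

include hUτ hNτ in
lemma tau_resc (t : ℝ≥0) (x : E) :
    τ (rescale 1 (pert U N) t x) = (Real.exp (-(1 * t)) : ℂ) * τ x := by
  rw [rescale_apply, map_smul, smul_eq_mul]
  congr 1
  show τ (U t (Ex N t x)) = τ x
  rw [hUτ, tau_Ex hNτ]

include hU hUi hUN hUτ hNτ hτe in
lemma isC0_TT : IsC0Semigroup (TT U N e τ) := by
  have hS := (isC0_pert hU hUi hUN).rescale 1
  refine ⟨?_, ?_, ?_⟩
  · ext x
    rw [TT_apply, hS.map_zero]
    simp
  · intro s t
    ext x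
    show TT U N e τ (s + t) x = TT U N e τ s (TT U N e τ t x)
    have h1 : τ (TT U N e τ t x) = τ x := by
      rw [TT_apply, map_add, map_smul, tau_resc hUτ hNτ, map_sub, map_smul, hτe]
      simp
    rw [TT_apply (t := s), h1, TT_apply (t := t), add_sub_cancel_left, ← hS.apply_add, TT_apply]
  · intro x
    simp only [TT_apply]
    exact continuous_const.add (hS.cont _)

include hUe hUτ hNe hNτ hτe in
lemma isResolventAt_TT {l : ℂ} (hl : l ≠ 0) (hl1 : l + 1 ≠ 0) {R : E →L[ℂ] E}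
    (hR : IsResolventAt (rescale 1 (pert U N)) l R) :
    IsResolventAt (TT U N e τ) l (l⁻¹ • proj τ e + R * (1 - proj τ e)) := by
  have hlim1 : Tendsto (fun t : ℝ≥0 => ((t : ℝ) : ℂ)⁻¹ * ((Real.exp (-(1 * t)) : ℂ) - 1)) (𝓝[>] 0)
      (𝓝 (-1)) := by
    have h5 : HasDerivAt (fun s : ℝ => Real.exp (-(1 * s))) (-1) 0 := by
      have h6 : HasDerivAt (fun s : ℝ => -(1 * s)) (-1) 0 := by
        have h7 := ((hasDerivAt_id (0 : ℝ)).const_mul 1).neg
        rw [mul_one] at h7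
        exact h7
      simpa using h6.exp
    have h6 := (hasDerivAt_iff_tendsto_slope.mp h5)
    have h7 : Tendsto (fun h : ℝ≥0 => (h : ℝ)) (𝓝[>] 0) (𝓝[≠] 0) :=
      tendsto_coe_nn.mono_right (nhdsWithin_mono _ (fun x hx => ne_of_gt hx))
    have h8 := (Complex.continuous_ofReal.tendsto _).comp (h6.comp h7)
    have h9 : ((-1 : ℝ) : ℂ) = -1 := by simp
    rw [h9] at h8
    refine h8.congr ?_
    intro t
    simp [Function.comp, slope]
  -- `τ` of the generator of the rescaled semigroup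
  have htau : ∀ x y, GenRel (rescale 1 (pert U N)) x y → τ y = - τ x := by
    intro x y h
    have h1 := (τ.continuous.tendsto _).comp h
    have h2 : Tendsto (fun t : ℝ≥0 => (((t : ℝ) : ℂ)⁻¹ * ((Real.exp (-(1 * t)) : ℂ) - 1)) * τ x)
        (𝓝[>] 0) (𝓝 ((-1) * τ x)) := hlim1.mul_const _
    have h3 := tendsto_nhds_unique (h1.congr fun t => ?_) h2
    · rw [h3]; ring
    · simp only [Function.comp, map_smul, map_sub, smul_eq_mul]
      rw [tau_resc hUτ hNτ]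
      ring
  have htR : ∀ y, τ (R y) = (l + 1)⁻¹ * τ y := by
    intro y
    have h1 := htau _ _ (hR.1 y)
    rw [map_sub, map_smul, smul_eq_mul] at h1
    field_simp
    linear_combination h1
  have hgen : ∀ x w, GenRel (TT U N e τ) x w ↔ GenRel (rescale 1 (pert U N)) (x - τ x • e) w := by
    intro x w
    unfold GenRel
    apply Filter.tendsto_congr
    intro t
    rw [TT_apply]
    congr 1
    abel
  have hap : ∀ y, (l⁻¹ • proj τ e + R * (1 - proj τ e)) y =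
      (l⁻¹ * τ y) • e + R (y - τ y • e) := by
    intro y
    rw [mul_smul]
    rfl
  constructor
  · intro y
    rw [hap, hgen]
    have h1 : τ (R (y - τ y • e)) = 0 := by
      rw [htR, map_sub, map_smul, hτe]; simp
    have h2 : τ ((l⁻¹ * τ y) • e + R (y - τ y • e)) = l⁻¹ * τ y := by
      rw [map_add, map_smul, hτe, h1]; simp
    rw [h2, add_sub_cancel_left]
    refine (hR.1 _).of_eq ?_
    rw [smul_add, smul_smul, mul_inv_cancel_left₀ hl]
    abel
  · intro x w h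
    rw [hgen] at h
    have h1 := hR.2 _ _ h
    have h2 : τ w = 0 := by
      rw [htau _ _ h, map_sub, map_smul, hτe]; simp
    rw [hap]
    have h3 : τ (l • x - w) = l * τ x := by
      rw [map_sub, map_smul, h2]; simp
    have h4 : l • x - w - τ (l • x - w) • e = l • (x - τ x • e) - w := by
      rw [h3, mul_smul, smul_sub]; abel
    rw [h4, h1, h3, inv_mul_cancel_left₀ hl]
    abel

include hUe hNe in
lemma eventually_pos {P : Set E} (hP : IsClosedCone P) (heP : e ∈ P)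
    (hτP : ∀ g ∈ P, 0 ≤ (τ g).re ∧ (τ g).im = 0) (hτ0 : ∀ g ∈ P, τ g = 0 → g = 0)
    (hUP : ∀ t, ∀ g ∈ P, U t g ∈ P)
    {C : ℝ} (hNP : ∀ k : ℕ, 1 ≤ k → ∀ g ∈ P,
      (N ^ k) g + ((C * (1 / 4) ^ k * ‖g‖ : ℝ) : ℂ) • e ∈ P) {g : E} (hg : g ∈ P) :
    ∃ t₀ : ℝ≥0, ∀ t, t₀ ≤ t → TT U N e τ t g ∈ P := by
  by_cases h0 : τ g = 0
  · refine ⟨0, fun t _ => ?_⟩
    rw [hτ0 g hg h0, map_zero]
    exact hP.zero_mem
  set r : ℝ := (τ g).re with hr
  have hrg : τ g = (r : ℂ) := by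
    apply Complex.ext
    · simp [hr]
    · simpa using (hτP g hg).2
  have hr0 : 0 < r := by
    rcases (hτP g hg).1.lt_or_eq with h | h
    · exact h
    · exfalso; apply h0; rw [hrg, hr, ← h]; simp
  -- positivity of the corrected orbit
  have hpos : ∀ t : ℝ≥0, pert U N t g + ((C * ‖g‖ * (Real.exp (t / 2) - 1) : ℝ) : ℂ) • e ∈ P := by
    intro t
    have h1 : HasSum (fun n : ℕ => (((2 * (t : ℝ)) ^ n / n.factorial : ℝ) : ℂ) • U t ((N ^ n) g))
        (pert U N t g) := by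
      have h := (U t).hasSum (Ex_hasSum_apply N t g)
      have e1 : (fun n : ℕ => (((2 * (t : ℝ)) ^ n / n.factorial : ℝ) : ℂ) • U t ((N ^ n) g)) =
        fun n : ℕ => U t ((((2 * (t : ℝ)) ^ n / n.factorial : ℝ) : ℂ) • (N ^ n) g) := by
        funext n; rw [map_smul]
      rw [e1]
      exact h
    have h2 : HasSum (fun n : ℕ => ((t : ℝ) / 2) ^ n / n.factorial) (Real.exp (t / 2)) := by
      have := NormedSpace.expSeries_div_hasSum_exp ((t : ℝ) / 2)
      rwa [← Real.exp_eq_exp_ℝ] at this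
    have h3 : HasSum (fun n : ℕ => if n = 0 then (0 : ℝ) else ((t : ℝ) / 2) ^ n / n.factorial)
        (Real.exp (t / 2) - 1) := by
      have h4 := h2.sub (hasSum_ite_eq (0 : ℕ) (1 : ℝ))
      have e2 : (fun n : ℕ => if n = 0 then (0 : ℝ) else ((t : ℝ) / 2) ^ n / n.factorial) =
          fun n : ℕ => ((t : ℝ) / 2) ^ n / n.factorial - if n = 0 then (1 : ℝ) else 0 := by
        funext n
        by_cases hn : n = 0
        · simp [hn]
        · simp [hn]
      rw [e2]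
      exact h4
    have h4 : HasSum (fun n : ℕ => ((C * ‖g‖ *
        (if n = 0 then (0 : ℝ) else ((t : ℝ) / 2) ^ n / n.factorial) : ℝ) : ℂ) • e)
        (((C * ‖g‖ * (Real.exp (t / 2) - 1) : ℝ) : ℂ) • e) := by
      have h5 := h3.mul_left (C * ‖g‖)
      have h6 := Complex.ofRealCLM.hasSum h5
      exact h6.smul_const e
    refine hP.hasSum_mem (h1.add h4) fun n => ?_
    by_cases hn : n = 0
    · subst hn
      simpa using hUP t g hg
    · have h5 := hUP t _ (hNP n (Nat.one_le_iff_ne_zero.mpr hn) g hg)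
      have h6 := hP.smul_mem ((2 * (t : ℝ)) ^ n / n.factorial) (by positivity) _ h5
      rw [map_add, map_smul, hUe] at h6
      rw [if_neg hn]
      convert h6 using 1
      rw [smul_add, smul_smul]
      congr 2
      rw [← Complex.ofReal_mul]
      congr 1
      rw [div_pow, mul_pow, one_div, inv_pow]
      have h8 : (4 : ℝ) ^ n = 2 ^ n * 2 ^ n := by rw [← mul_pow]; norm_num
      rw [h8]
      field_simp
  -- the bracket
  have hbr : Tendsto (fun t : ℝ => r * (1 - Real.exp (-t)) -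
      C * ‖g‖ * (Real.exp (-(t / 2)) - Real.exp (-t))) atTop (𝓝 (r * (1 - 0) - C * ‖g‖ * (0 - 0))) := by
    have h1 : Tendsto (fun t : ℝ => Real.exp (-t)) atTop (𝓝 0) := Real.tendsto_exp_neg_atTop_nhds_zero
    have h2 : Tendsto (fun t : ℝ => Real.exp (-(t / 2))) atTop (𝓝 0) :=
      h1.comp (tendsto_id.atTop_div_const (by norm_num : (0 : ℝ) < 2))
    exact ((h1.const_sub 1).const_mul r).sub ((h2.sub h1).const_mul _)
  rw [sub_zero, sub_zero, mul_one, mul_zero, sub_zero] at hbr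
  obtain ⟨t₀, ht₀⟩ := Filter.eventually_atTop.mp (hbr.eventually_const_lt hr0)
  refine ⟨t₀.toNNReal, fun t ht => ?_⟩
  have ht' : t₀ ≤ t := Real.toNNReal_le_iff_le_coe.mp ht
  have hb := ht₀ t ht'
  set b : ℝ := r * (1 - Real.exp (-t)) - C * ‖g‖ * (Real.exp (-((t : ℝ) / 2)) - Real.exp (-t)) with hbdef
  have h1 := hP.smul_mem (Real.exp (-t)) (Real.exp_nonneg _) _ (hpos t)
  have h2 := hP.smul_mem b hb.le _ heP
  have h3 := hP.add_mem _ h1 _ h2
  convert h3 using 1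
  have h4 : pert U N t e = e := by
    show U t (Ex N t e) = e
    rw [Ex_e hNe, hUe]
  rw [TT_apply, rescale_apply, map_sub, map_smul, h4, hrg, hbdef, one_mul]
  have h5 : Real.exp (-(t : ℝ)) * (Real.exp ((t : ℝ) / 2)) = Real.exp (-((t : ℝ) / 2)) := by
    rw [← Real.exp_add]; congr 1; ring
  rw [smul_sub, smul_add, smul_smul, smul_smul, ← h5]
  have h7 : (r : ℂ) • e + ((Real.exp (-(t : ℝ)) : ℂ) • pert U N t g -
      ((Real.exp (-(t : ℝ)) : ℂ) * (r : ℂ)) • e) = (Real.exp (-(t : ℝ)) : ℂ) • pert U N t g +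
      ((r : ℂ) - (Real.exp (-(t : ℝ)) : ℂ) * (r : ℂ)) • e := by
    rw [sub_smul]; abel
  rw [h7, add_assoc, ← add_smul]
  congr 2
  push_cast
  ring

end semigroup

section growth

lemma two_pow_mul_factorial_le (k : ℕ) : (2 : ℝ) ^ k * k.factorial ≤ 2 * (k : ℝ) ^ k := by
  induction k with
  | zero => norm_num
  | succ k ih =>
    rcases Nat.eq_zero_or_pos k with rfl | hk
    · norm_num
    have h1 : 2 * (k : ℝ) ^ k ≤ ((k : ℝ) + 1) ^ k := by
      have hk' : (0 : ℝ) < k := by exact_mod_cast hk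
      have h2 := one_add_mul_le_pow (a := (1 : ℝ) / k) (by
        have : (0 : ℝ) ≤ 1 / k := by positivity
        linarith) k
      have h3 : (1 : ℝ) + k * (1 / k) = 2 := by field_simp; norm_num
      rw [h3] at h2
      calc 2 * (k : ℝ) ^ k ≤ (1 + 1 / (k : ℝ)) ^ k * (k : ℝ) ^ k := by gcongr
        _ = ((k : ℝ) + 1) ^ k := by
            rw [← mul_pow]; congr 1; field_simp
    rw [pow_succ, Nat.factorial_succ]
    push_cast
    calc (2 : ℝ) ^ k * 2 * ((k + 1) * k.factorial) = 2 * (k + 1) * (2 ^ k * k.factorial) := by ring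
      _ ≤ 2 * (k + 1) * (2 * (k : ℝ) ^ k) := by gcongr
      _ ≤ 2 * (k + 1) * ((k : ℝ) + 1) ^ k := by gcongr
      _ = 2 * ((k : ℝ) + 1) ^ (k + 1) := by ring

lemma growth_pos (hUi : ∀ t x, ‖U t x‖ = ‖x‖) {c : ℝ} (hc : 0 < c)
    (hgrow : ∀ k : ℕ, ∃ g : E, ∃ ψ : E →L[ℂ] ℂ, ‖g‖ ≤ 1 ∧ ‖ψ‖ ≤ 1 ∧ τ g = 0 ∧
      (∀ j, j ≠ k → ψ ((N ^ j) g) = 0) ∧ c ≤ ‖ψ ((N ^ k) g)‖) :
    ((2 * Real.log 2 - 1 : ℝ) : EReal) ≤ growthBound (TT U N e τ) := by
  refine le_sInf ?_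
  rintro w ⟨ω, rfl, M, hM⟩
  rw [EReal.coe_le_coe_iff]
  by_contra hlt
  rw [not_le] at hlt
  -- lower bound of the norm
  have hlow : ∀ k : ℕ, c / 2 * (2 * Real.exp (-(1 / 2))) ^ k ≤ ‖TT U N e τ (k / 2)‖ := by
    intro k
    obtain ⟨g, ψ, hg, hψ, hτg, hj, hk⟩ := hgrow k
    have h1 : TT U N e τ (k / 2) g =
        (Real.exp (-(1 * ((k / 2 : ℝ≥0) : ℝ))) : ℂ) • U (k / 2) (Ex N ((k / 2 : ℝ≥0) : ℝ) g) := by
      rw [TT_apply, hτg, zero_smul, sub_zero, zero_add]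
      rfl
    have h2 : ‖TT U N e τ (k / 2) g‖ = Real.exp (-(k / 2)) * ‖Ex N (k / 2) g‖ := by
      rw [h1, norm_smul, hUi, Complex.norm_real, Real.norm_eq_abs, abs_of_pos (Real.exp_pos _)]
      push_cast
      rw [one_mul]
    have h3 : ψ (Ex N (k / 2) g) = (((k : ℝ) ^ k / k.factorial : ℝ) : ℂ) * ψ ((N ^ k) g) := by
      have h := ψ.hasSum (Ex_hasSum_apply N (k / 2) g)
      have h2 := hasSum_single
        (f := fun n : ℕ => ψ ((((2 * ((k : ℝ) / 2)) ^ n / n.factorial : ℝ) : ℂ) • (N ^ n) g)) k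
        (fun n hn => by simp only [map_smul, hj n hn, smul_zero])
      have h3 := h.unique h2
      rw [h3, map_smul, smul_eq_mul]
      congr 3
      ring
    have h4 : c * ((k : ℝ) ^ k / k.factorial) ≤ ‖Ex N (k / 2) g‖ := by
      have h5 : ‖ψ (Ex N (k / 2) g)‖ ≤ ‖Ex N (k / 2) g‖ := by
        refine (ψ.le_opNorm _).trans ?_
        calc ‖ψ‖ * ‖Ex N (k / 2) g‖ ≤ 1 * ‖Ex N (k / 2) g‖ := by gcongr
          _ = _ := one_mul _
      refine le_trans ?_ h5
      rw [h3, norm_mul, Complex.norm_real, Real.norm_eq_abs, abs_of_nonneg (by positivity), mul_comm]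
      gcongr
    have h5 : ‖TT U N e τ (k / 2) g‖ ≤ ‖TT U N e τ (k / 2)‖ := by
      refine ((TT U N e τ (k / 2)).le_opNorm _).trans ?_
      calc _ ≤ ‖TT U N e τ (k / 2)‖ * 1 := by gcongr
        _ = _ := mul_one _
    refine le_trans ?_ h5
    rw [h2]
    have h6 : (2 : ℝ) ^ k / 2 ≤ (k : ℝ) ^ k / k.factorial := by
      rw [div_le_div_iff₀ (by norm_num) (by positivity)]
      have := two_pow_mul_factorial_le k
      linarith
    have h7 : Real.exp (-(1 / 2)) ^ k = Real.exp (-((k : ℝ) / 2)) := by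
      rw [← Real.exp_nat_mul]; congr 1; ring
    calc c / 2 * (2 * Real.exp (-(1 / 2))) ^ k = Real.exp (-((k : ℝ) / 2)) * (c * (2 ^ k / 2)) := by
          rw [mul_pow, h7]; ring
      _ ≤ Real.exp (-((k : ℝ) / 2)) * (c * ((k : ℝ) ^ k / k.factorial)) := by gcongr
      _ ≤ _ := by gcongr
  set q : ℝ := 2 * Real.exp (-(1 / 2)) * Real.exp (-(ω / 2)) with hq
  have hq1 : 1 < q := by
    have : q = Real.exp (Real.log 2 - 1 / 2 - ω / 2) := by
      rw [hq, sub_sub, Real.exp_sub, Real.exp_log (by norm_num), Real.exp_add, Real.exp_neg,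
        Real.exp_neg]
      field_simp
    rw [this, Real.one_lt_exp_iff]
    linarith
  have hbd : ∀ k : ℕ, c / 2 * q ^ k ≤ M := by
    intro k
    have h1 := (hlow k).trans (hM (k / 2))
    have h2 : Real.exp (-(ω / 2)) ^ k = Real.exp (-(ω * (k / 2))) := by
      rw [← Real.exp_nat_mul]; congr 1; ring
    have h3 : (((k / 2 : ℝ≥0)) : ℝ) = (k : ℝ) / 2 := by push_cast; rfl
    rw [h3] at h1
    calc c / 2 * q ^ k = c / 2 * (2 * Real.exp (-(1 / 2))) ^ k * Real.exp (-(ω * (k / 2))) := by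
          rw [hq, mul_pow, h2]; ring
      _ ≤ M * Real.exp (ω * (k / 2)) * Real.exp (-(ω * (k / 2))) := by gcongr
      _ = M := by
          rw [mul_assoc, ← Real.exp_add, add_neg_cancel, Real.exp_zero, mul_one]
  have h1 := (tendsto_pow_atTop_atTop_of_one_lt hq1).const_mul_atTop (show 0 < c / 2 by positivity)
  obtain ⟨k, hk⟩ := (h1.eventually_gt_atTop M).exists
  exact absurd (hbd k) (not_le.mpr hk)

end growth

end Pool.Agent.H40.Pert

namespace Pool.Agent.H21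

open Filter Topology MeasureTheory Set
open scoped NNReal ENNReal

open Pool.Agent.H40.Pert in
/-- **Abstract perturbation theorem** (job S for MP_25d1d3_an). -/
theorem exists_semigroup {E : Type*} [NormedAddCommGroup E] [NormedSpace ℂ E] [CompleteSpace E]
    {P : Set E} (hP : IsClosedCone P) {e : E} {τ : E →L[ℂ] ℂ}
    {U : ℝ≥0 → E →L[ℂ] E} (hU : IsC0Semigroup U) (hUi : ∀ t x, ‖U t x‖ = ‖x‖)
    {N : E →L[ℂ] E} (hUN : ∀ t x, U t (N x) = N (U t x))
    (hUe : ∀ t, U t e = e) (hUτ : ∀ t x, τ (U t x) = τ x)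
    (hNe : N e = 0) (hNτ : ∀ x, τ (N x) = 0) (hτe : τ e = 1) (heP : e ∈ P)
    (hτP : ∀ g ∈ P, 0 ≤ (τ g).re ∧ (τ g).im = 0) (hτ0 : ∀ g ∈ P, τ g = 0 → g = 0)
    (hUP : ∀ t, ∀ g ∈ P, U t g ∈ P)
    {C : ℝ} (hNP : ∀ k : ℕ, 1 ≤ k → ∀ g ∈ P,
      (N ^ k) g + ((C * (1 / 4) ^ k * ‖g‖ : ℝ) : ℂ) • e ∈ P)
    {c : ℝ} (hc : 0 < c)
    (hgrow : ∀ k : ℕ, ∃ g : E, ∃ ψ : E →L[ℂ] ℂ, ‖g‖ ≤ 1 ∧ ‖ψ‖ ≤ 1 ∧ τ g = 0 ∧
      (∀ j, j ≠ k → ψ ((N ^ j) g) = 0) ∧ c ≤ ‖ψ ((N ^ k) g)‖)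
    {C' : ℝ}
    (hsplit : ∀ m : ℕ, ∃ N' N'' : E →L[ℂ] E, N = N' + N'' ∧ N' * N'' = 0 ∧ N'' * N' = 0 ∧
      (∃ r : ℕ, N'' ^ r = 0) ∧ ‖N'‖ ≤ C' ∧ (∀ t x, U t (N' x) = N' (U t x)) ∧
      (∀ x, U ((1 / 2) ^ m) (N' x) = N' x) ∧
      ∀ x, ∫ t in (0 : ℝ)..((1 / 2) ^ m), U t.toNNReal (N' x) = 0) :
    ∃ T : ℝ≥0 → E →L[ℂ] E, IsC0Semigroup T ∧
      (∀ f ∈ P, ∃ t₀ : ℝ≥0, ∀ t, t₀ ≤ t → T t f ∈ P) ∧ spectralBound T < growthBound T := by
  refine ⟨TT U N e τ, isC0_TT hU hUi hUN hUτ hNτ hτe, fun f hf =>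
    eventually_pos hUe hNe hP heP hτP hτ0 hUP hNP hf, ?_⟩
  have h1 : spectralBound (TT U N e τ) ≤ 0 := by
    refine iSup₂_le fun z hz => ?_
    by_contra hlt
    rw [not_le] at hlt
    have hz0 : 0 < z.re := by exact_mod_cast hlt
    apply hz
    have hz1 : 0 < (z + 1).re := by simp; linarith
    obtain ⟨R', hR'⟩ := exists_resolvent_pert hU hUi hUN hsplit hz1
    have hR2 : IsResolventAt (rescale 1 (pert U N)) z R' := by
      apply IsResolventAt.rescale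
      simpa using hR'
    refine ⟨_, isResolventAt_TT hUe hUτ hNe hNτ hτe ?_ ?_ hR2⟩
    · intro h; rw [h] at hz0; simp at hz0
    · intro h; rw [h] at hz1; simp at hz1
  have h2 := growth_pos (e := e) (τ := τ) hUi hc hgrow
  refine lt_of_le_of_lt h1 (lt_of_lt_of_le ?_ h2)
  have := Real.log_two_gt_d9
  rw [← EReal.coe_zero, EReal.coe_lt_coe_iff]
  linarith

end Pool.Agent.H21
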