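import Pool.Agent.H21.Semi3

/-!
# Bounded perturbation of an isometric `C₀`-semigroup by a commuting operator

`S(t) = U(t) exp(2 t N)` for `N` commuting with `U`: semigroup, generator, resolvent.
-/

namespace Pool.Agent.H40.Pert

open Filter Topology MeasureTheory Set Pool.Agent.H21
open scoped NNReal ENNReal

variable {E : Type*} [NormedAddCommGroup E] [NormedSpace ℂ E] [CompleteSpace E]

/-- `exp (2 t N)`. -/
noncomputable def Ex (N : E →L[ℂ] E) (t : ℝ) : E →L[ℂ] E :=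
  NormedSpace.exp (((2 * t : ℝ) : ℂ) • N)

lemma Ex_zero (N : E →L[ℂ] E) : Ex N 0 = 1 := by
  simp [Ex, NormedSpace.exp_zero]

lemma Ex_add (N : E →L[ℂ] E) (s t : ℝ) : Ex N (s + t) = Ex N s * Ex N t := by
  let _ : NormedAlgebra ℚ (E →L[ℂ] E) := NormedAlgebra.restrictScalars ℚ ℂ (E →L[ℂ] E)
  rw [Ex, Ex, Ex, ← NormedSpace.exp_add_of_commute]
  · congr 1
    rw [← add_smul]; congr 1; push_cast; ring
  · exact ((Commute.refl N).smul_left _).smul_right _

lemma Ex_hasSum (N : E →L[ℂ] E) (t : ℝ) :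
    HasSum (fun n : ℕ => (((2 * t) ^ n / n.factorial : ℝ) : ℂ) • N ^ n) (Ex N t) := by
  have h := NormedSpace.exp_series_hasSum_exp' (𝕂 := ℂ) (((2 * t : ℝ) : ℂ) • N)
  have e : (fun n : ℕ => (((2 * t) ^ n / n.factorial : ℝ) : ℂ) • N ^ n) =
      fun n : ℕ => ((n.factorial : ℂ)⁻¹) • (((2 * t : ℝ) : ℂ) • N) ^ n := by
    funext n
    rw [smul_pow, smul_smul]
    congr 1
    push_cast
    ring
  rw [e]
  exact h

lemma Ex_hasSum_apply (N : E →L[ℂ] E) (t : ℝ) (x : E) :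
    HasSum (fun n : ℕ => (((2 * t) ^ n / n.factorial : ℝ) : ℂ) • (N ^ n) x) (Ex N t x) := by
  have h := (ContinuousLinearMap.apply ℂ E x).hasSum (Ex_hasSum N t)
  have e : (fun n : ℕ => (((2 * t) ^ n / n.factorial : ℝ) : ℂ) • (N ^ n) x) =
      fun n : ℕ => (ContinuousLinearMap.apply ℂ E x)
        ((((2 * t) ^ n / n.factorial : ℝ) : ℂ) • N ^ n) := by
    funext n
    rw [map_smul, ContinuousLinearMap.apply_apply]
  rw [e]
  exact h

lemma Ex_continuous (N : E →L[ℂ] E) : Continuous (Ex N) := by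
  let _ : NormedAlgebra ℚ (E →L[ℂ] E) := NormedAlgebra.restrictScalars ℚ ℂ (E →L[ℂ] E)
  have h : Continuous (NormedSpace.exp : (E →L[ℂ] E) → (E →L[ℂ] E)) := NormedSpace.exp_continuous
  refine h.comp ?_
  have h2 : Continuous fun t : ℝ => (((2 * t : ℝ)) : ℂ) := by fun_prop
  exact h2.smul continuous_const

/-- Operators commuting with `N` commute with `Ex N t`. -/
lemma Ex_comm {N A : E →L[ℂ] E} (h : Commute A N) (t : ℝ) : Commute A (Ex N t) := by
  have h1 := Ex_hasSum N t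
  have h2 := h1.mul_left A
  have h3 := h1.mul_right A
  refine h2.unique ?_
  convert h3 using 2 with n
  rw [mul_smul_comm, smul_mul_assoc, (h.pow_right n).eq]

lemma tendsto_coe_nn : Tendsto (fun h : ℝ≥0 => (h : ℝ)) (𝓝[>] 0) (𝓝[>] 0) := by
  apply tendsto_nhdsWithin_of_tendsto_nhds_of_eventually_within
  · have : Tendsto (fun h : ℝ≥0 => (h : ℝ)) (𝓝 0) (𝓝 ((0 : ℝ≥0) : ℝ)) :=
      NNReal.continuous_coe.tendsto 0
    simpa using this.mono_left nhdsWithin_le_nhds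
  · filter_upwards [self_mem_nhdsWithin] with h hh
    exact_mod_cast hh

lemma tendsto_coe_nn_complex :
    Tendsto (fun h : ℝ≥0 => ((h : ℝ) : ℂ)) (𝓝[>] 0) (𝓝[≠] 0) := by
  apply tendsto_nhdsWithin_of_tendsto_nhds_of_eventually_within
  · have h1 : Tendsto (fun h : ℝ≥0 => (h : ℝ)) (𝓝[>] 0) (𝓝 0) :=
      tendsto_coe_nn.mono_right nhdsWithin_le_nhds
    have h2 := (Complex.continuous_ofReal.tendsto 0).comp h1
    rw [Complex.ofReal_zero] at h2
    exact h2
  · filter_upwards [self_mem_nhdsWithin] with h hh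
    have : (h : ℝ) ≠ 0 := ne_of_gt (by exact_mod_cast hh)
    simpa using this

lemma Ex_tendsto (N : E →L[ℂ] E) (x : E) :
    Tendsto (fun t : ℝ≥0 => ((t : ℝ) : ℂ)⁻¹ • (Ex N t x - x)) (𝓝[>] 0)
      (𝓝 ((2 : ℂ) • N x)) := by
  have h1 : HasDerivAt (fun u : ℂ => NormedSpace.exp (u • ((2 : ℂ) • N)))
      (NormedSpace.exp ((0 : ℂ) • ((2 : ℂ) • N)) * ((2 : ℂ) • N)) 0 :=
    hasDerivAt_exp_smul_const (𝕂 := ℂ) ((2 : ℂ) • N) 0
  rw [zero_smul, NormedSpace.exp_zero, one_mul] at h1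
  have h6 := ((hasDerivAt_iff_tendsto_slope.mp h1).comp tendsto_coe_nn_complex)
  have h7 := ((ContinuousLinearMap.apply ℂ E x).continuous.tendsto _).comp h6
  refine h7.congr fun t => ?_
  simp only [Function.comp, slope, vsub_eq_sub, sub_zero, zero_smul, NormedSpace.exp_zero,
    map_smul, ContinuousLinearMap.apply_apply]
  congr 1
  have e : ((t : ℝ) : ℂ) • ((2 : ℂ) • N) = ((2 * (t : ℝ) : ℝ) : ℂ) • N := by
    rw [smul_smul]; congr 1; push_cast; ring
  rw [e]
  rfl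

/-- The perturbed semigroup. -/
noncomputable def pert (U : ℝ≥0 → E →L[ℂ] E) (N : E →L[ℂ] E) : ℝ≥0 → E →L[ℂ] E :=
  fun t => U t * Ex N t

variable {U : ℝ≥0 → E →L[ℂ] E} {N : E →L[ℂ] E}

lemma isC0_pert (hU : IsC0Semigroup U) (hUi : ∀ t x, ‖U t x‖ = ‖x‖)
    (hUN : ∀ t x, U t (N x) = N (U t x)) : IsC0Semigroup (pert U N) := by
  have hc : ∀ t s, Commute (U t) (Ex N s) := fun t s => by
    apply Ex_comm
    ext x
    exact hUN t x
  refine ⟨?_, ?_, ?_⟩
  · simp [pert, hU.map_zero, Ex_zero]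
  · intro s t
    simp only [pert]
    rw [hU.map_add, NNReal.coe_add, Ex_add]
    rw [mul_assoc, ← mul_assoc (U t), (hc t s).eq]
    simp only [mul_assoc]
  · intro x
    rw [continuous_iff_continuousAt]
    intro t
    rw [ContinuousAt, tendsto_iff_norm_sub_tendsto_zero]
    have h1 : Tendsto (fun s : ℝ≥0 => ‖Ex N s x - Ex N t x‖ + ‖U s (Ex N t x) - U t (Ex N t x)‖)
        (𝓝 t) (𝓝 (0 + 0)) := by
      apply Tendsto.add
      · rw [← tendsto_iff_norm_sub_tendsto_zero]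
        have : Continuous fun s : ℝ≥0 => Ex N s x :=
          (ContinuousLinearMap.apply ℂ E x).continuous.comp
            ((Ex_continuous N).comp NNReal.continuous_coe)
        exact this.tendsto t
      · rw [← tendsto_iff_norm_sub_tendsto_zero]
        exact (hU.cont _).tendsto t
    rw [add_zero] at h1
    refine squeeze_zero (fun _ => norm_nonneg _) (fun s => ?_) h1
    have e : pert U N s x - pert U N t x =
        U s (Ex N s x - Ex N t x) + (U s (Ex N t x) - U t (Ex N t x)) := by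
      rw [map_sub]
      simp only [pert, mul_apply_eq_comp]
      abel
    rw [e]
    refine (norm_add_le _ _).trans ?_
    rw [hUi]

lemma tendsto_ex_quot (hU : IsC0Semigroup U) (hUi : ∀ t x, ‖U t x‖ = ‖x‖) (x : E) :
    Tendsto (fun t : ℝ≥0 => ((t : ℝ) : ℂ)⁻¹ • U t (Ex N t x - x)) (𝓝[>] 0)
      (𝓝 ((2 : ℂ) • N x)) := by
  have h1 := Ex_tendsto N x
  have h2 : Tendsto (fun t : ℝ≥0 => U t ((2 : ℂ) • N x)) (𝓝[>] 0) (𝓝 ((2 : ℂ) • N x)) := by
    have := (hU.cont ((2 : ℂ) • N x)).tendsto 0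
    rw [hU.map_zero] at this
    exact this.mono_left nhdsWithin_le_nhds
  rw [tendsto_iff_norm_sub_tendsto_zero] at h1 h2 ⊢
  have h3 := h1.add h2
  rw [add_zero] at h3
  refine squeeze_zero (fun _ => norm_nonneg _) (fun t => ?_) h3
  have e : ((t : ℝ) : ℂ)⁻¹ • U t (Ex N t x - x) - (2 : ℂ) • N x =
      U t (((t : ℝ) : ℂ)⁻¹ • (Ex N t x - x) - (2 : ℂ) • N x) +
        (U t ((2 : ℂ) • N x) - (2 : ℂ) • N x) := by
    rw [map_sub (U t) (((t : ℝ) : ℂ)⁻¹ • (Ex N t x - x)), map_smul (U t) (((t : ℝ) : ℂ)⁻¹),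
      sub_add_sub_cancel]
  rw [e]
  refine (norm_add_le _ _).trans ?_
  rw [hUi]

lemma genRel_pert (hU : IsC0Semigroup U) (hUi : ∀ t x, ‖U t x‖ = ‖x‖) {x y : E}
    (h : GenRel U x y) : GenRel (pert U N) x (y + (2 : ℂ) • N x) := by
  have h1 := Tendsto.add h (tendsto_ex_quot (N := N) hU hUi x)
  refine h1.congr fun t => ?_
  rw [← smul_add]
  congr 1
  rw [map_sub]
  simp only [pert, mul_apply_eq_comp]
  abel

lemma genRel_of_pert (hU : IsC0Semigroup U) (hUi : ∀ t x, ‖U t x‖ = ‖x‖) {x y : E}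
    (h : GenRel (pert U N) x y) : GenRel U x (y - (2 : ℂ) • N x) := by
  have h1 := Tendsto.sub h (tendsto_ex_quot (N := N) hU hUi x)
  refine h1.congr fun t => ?_
  rw [← smul_sub]
  congr 1
  rw [map_sub]
  simp only [pert, mul_apply_eq_comp]
  abel

/-- Operators commuting with the semigroup commute with the resolvent. -/
lemma resolvent_comm {z : ℂ} {R A : E →L[ℂ] E} (hR : IsResolventAt U z R)
    (hA : ∀ t x, U t (A x) = A (U t x)) (y : E) : R (A y) = A (R y) := by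
  have h1 : GenRel U (A (R y)) (A (z • R y - y)) := by
    have h1 := (A.continuous.tendsto _).comp (hR.1 y)
    refine h1.congr ?_
    intro t
    simp only [Function.comp, map_smul, map_sub]
    rw [hA]
  have h2 := hR.2 _ _ h1
  have h3 : z • A (R y) - A (z • R y - y) = A y := by
    rw [map_sub, map_smul]; abel
  rw [h3] at h2
  exact h2

/-- The resolvent of the perturbed semigroup. -/
lemma isResolventAt_pert (hU : IsC0Semigroup U) (hUi : ∀ t x, ‖U t x‖ = ‖x‖)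
    {z : ℂ} {R : E →L[ℂ] E} (hR : IsResolventAt U z R)
    (hu : IsUnit (1 - (2 : ℂ) • (N * R))) :
    ∃ R' : E →L[ℂ] E, IsResolventAt (pert U N) z R' := by
  obtain ⟨u, hu⟩ := hu
  refine ⟨R * (↑u⁻¹ : E →L[ℂ] E), ?_, ?_⟩
  · intro y
    set w := (↑u⁻¹ : E →L[ℂ] E) y with hw
    have h1 : (1 - (2 : ℂ) • (N * R)) w = y := by
      rw [← hu, hw]
      have : ((u : E →L[ℂ] E) * (↑u⁻¹ : E →L[ℂ] E)) y = y := by rw [Units.mul_inv]; rfl
      exact this
    have h2 := genRel_pert (N := N) hU hUi (hR.1 w)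
    have h3 : (R * (↑u⁻¹ : E →L[ℂ] E)) y = R w := rfl
    rw [h3]
    refine h2.of_eq ?_
    have h4 : w - (2 : ℂ) • N (R w) = y := by
      rw [← h1]; rfl
    rw [← h4]
    abel
  · intro x y h
    have h1 := genRel_of_pert (N := N) hU hUi h
    have h2 := hR.2 _ _ h1
    set w := z • x - (y - (2 : ℂ) • N x) with hw
    have h3 : (u : E →L[ℂ] E) w = z • x - y := by
      rw [hu]
      have : (1 - (2 : ℂ) • (N * R)) w = w - (2 : ℂ) • N (R w) := rfl
      rw [this, h2, hw]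
      abel
    have h4 : (↑u⁻¹ : E →L[ℂ] E) (z • x - y) = w := by
      rw [← h3]
      have : ((↑u⁻¹ : E →L[ℂ] E) * (u : E →L[ℂ] E)) w = w := by rw [Units.inv_mul]; rfl
      exact this
    have h5 : (R * (↑u⁻¹ : E →L[ℂ] E)) (z • x - y) = R ((↑u⁻¹ : E →L[ℂ] E) (z • x - y)) := rfl
    rw [h5, h4, h2]

end Pool.Agent.H40.Pert
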