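import Pool.Agent.H40.Semi.Pert

/-!
# Invertibility of `1 - 2 N R` and the resolvent of the perturbed semigroup
-/

namespace Pool.Agent.H40.Pert

open Filter Topology MeasureTheory Set Pool.Agent.H21
open scoped NNReal ENNReal

variable {E : Type*} [NormedAddCommGroup E] [NormedSpace ℂ E] [CompleteSpace E]
variable {U : ℝ≥0 → E →L[ℂ] E} {N : E →L[ℂ] E}

lemma norm_mul_le (hU : IsC0Semigroup U) (hUi : ∀ t x, ‖U t x‖ = ‖x‖) {z : ℂ} (hz : 0 < z.re)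
    {R : E →L[ℂ] E} (hR : IsResolventAt U z R) {N' : E →L[ℂ] E}
    (hcomm : ∀ t x, U t (N' x) = N' (U t x)) {C' : ℝ} (hC : ‖N'‖ ≤ C') {δ : ℝ} (hδ : 0 < δ)
    (hper : ∀ x, U δ.toNNReal (N' x) = N' x)
    (hint : ∀ x, ∫ t in (0 : ℝ)..δ, U t.toNNReal (N' x) = 0) (hzδ : ‖z‖ * δ ≤ 1) :
    ‖N' * R‖ ≤ 4 * ‖z‖ * C' / z.re * δ := by
  have hC0 : 0 ≤ C' := (norm_nonneg _).trans hC
  refine ContinuousLinearMap.opNorm_le_bound _ (by positivity) fun x => ?_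
  have h1 : (N' * R) x = R (N' x) := (resolvent_comm hR hcomm x).symm
  rw [h1]
  set y := N' x with hy
  have hyn : ‖y‖ ≤ C' * ‖x‖ := (N'.le_opNorm x).trans (by gcongr)
  have h2 := hR.laplace hU y hδ.le
  have h3 : U δ.toNNReal (R y) = R y := by
    rw [← hR.comm hU, hper]
  rw [h3] at h2
  have hc1 := continuous_cexp_orbit hU z y
  have hc2 := continuous_orbit hU y
  have h4 : (1 - Complex.exp (-(z * δ))) • R y =
      ∫ s in (0 : ℝ)..δ, (Complex.exp (-(z * s)) - 1) • U s.toNNReal y := by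
    rw [sub_smul, one_smul, h2, ← sub_zero (∫ s in (0 : ℝ)..δ, Complex.exp (-(z * s)) • _),
      ← hint x, ← intervalIntegral.integral_sub (hc1.intervalIntegrable _ _)
        (hc2.intervalIntegrable _ _)]
    congr 1
    funext s
    rw [sub_smul, one_smul]
  have h5 : ‖∫ s in (0 : ℝ)..δ, (Complex.exp (-(z * s)) - 1) • U s.toNNReal y‖ ≤
      (2 * (‖z‖ * δ) * ‖y‖) * |δ - 0| := by
    apply intervalIntegral.norm_integral_le_of_norm_le_const
    intro s hs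
    rw [uIoc_of_le hδ.le] at hs
    rw [norm_smul, hUi]
    have h6 : ‖-(z * (s : ℂ))‖ ≤ ‖z‖ * δ := by
      rw [norm_neg, norm_mul, Complex.norm_real, Real.norm_eq_abs, abs_of_pos hs.1]
      exact mul_le_mul_of_nonneg_left hs.2 (norm_nonneg _)
    have h7 := Complex.norm_exp_sub_one_le (h6.trans hzδ)
    gcongr
    exact h7.trans (by linarith)
  rw [sub_zero, abs_of_pos hδ] at h5
  have hx1 : z.re * δ ≤ 1 := by
    refine le_trans ?_ hzδ
    gcongr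
    exact Complex.re_le_norm z
  have h8 : z.re * δ / 2 ≤ ‖1 - Complex.exp (-(z * δ))‖ := by
    have h9 : 1 - Real.exp (-(z.re * δ)) ≤ ‖1 - Complex.exp (-(z * δ))‖ := by
      have h10 := norm_sub_norm_le (1 : ℂ) (Complex.exp (-(z * δ)))
      rw [norm_one, norm_cexp_neg_mul] at h10
      exact h10
    refine le_trans ?_ h9
    set a := z.re * δ with ha
    have ha0 : 0 < a := mul_pos hz hδ
    have h11 := Real.add_one_le_exp a
    have h12 : Real.exp (-a) ≤ 1 / (a + 1) := by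
      rw [Real.exp_neg, inv_eq_one_div]
      exact one_div_le_one_div_of_le (by linarith) h11
    have h13 : 1 / (a + 1) ≤ 1 - a / 2 := by
      rw [div_le_iff₀ (by linarith)]
      nlinarith
    linarith
  have h9 : z.re * δ / 2 * ‖R y‖ ≤ 2 * (‖z‖ * δ) * ‖y‖ * δ := by
    refine le_trans ?_ h5
    rw [← h4, norm_smul]
    gcongr
  have h10 : ‖R y‖ ≤ 4 * ‖z‖ / z.re * δ * ‖y‖ := by
    have h11 : 0 < z.re * δ / 2 := by positivity
    rw [← mul_le_mul_iff_right₀ h11]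
    refine h9.trans (le_of_eq ?_)
    field_simp
    ring
  calc ‖R y‖ ≤ 4 * ‖z‖ / z.re * δ * ‖y‖ := h10
    _ ≤ 4 * ‖z‖ / z.re * δ * (C' * ‖x‖) := by gcongr
    _ = 4 * ‖z‖ * C' / z.re * δ * ‖x‖ := by ring

lemma isUnit_one_sub (hU : IsC0Semigroup U) (hUi : ∀ t x, ‖U t x‖ = ‖x‖)
    (hUN : ∀ t x, U t (N x) = N (U t x)) {C' : ℝ}
    (hsplit : ∀ m : ℕ, ∃ N' N'' : E →L[ℂ] E, N = N' + N'' ∧ N' * N'' = 0 ∧ N'' * N' = 0 ∧
      (∃ r : ℕ, N'' ^ r = 0) ∧ ‖N'‖ ≤ C' ∧ (∀ t x, U t (N' x) = N' (U t x)) ∧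
      (∀ x, U ((1 / 2) ^ m) (N' x) = N' x) ∧
      ∀ x, ∫ t in (0 : ℝ)..((1 / 2) ^ m), U t.toNNReal (N' x) = 0)
    {z : ℂ} (hz : 0 < z.re) {R : E →L[ℂ] E} (hR : IsResolventAt U z R) :
    IsUnit (1 - (2 : ℂ) • (N * R)) := by
  have hlim : Tendsto (fun m : ℕ => ((1 : ℝ) / 2) ^ m) atTop (𝓝 0) :=
    tendsto_pow_atTop_nhds_zero_of_lt_one (by norm_num) (by norm_num)
  have hl1 : Tendsto (fun m : ℕ => ‖z‖ * ((1 : ℝ) / 2) ^ m) atTop (𝓝 0) := by
    simpa using hlim.const_mul ‖z‖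
  have hl2 : Tendsto (fun m : ℕ => 4 * ‖z‖ * C' / z.re * ((1 : ℝ) / 2) ^ m) atTop (𝓝 0) := by
    simpa using hlim.const_mul (4 * ‖z‖ * C' / z.re)
  obtain ⟨m, hm1, hm2⟩ := ((hl1.eventually_le_const one_pos).and
    (hl2.eventually_lt_const (show (0 : ℝ) < 1 / 2 by norm_num))).exists
  obtain ⟨N', N'', hN, h12, h21, ⟨r, hr⟩, hC, hcomm, hper, hint⟩ := hsplit m
  have hδ : (0 : ℝ) < (1 / 2) ^ m := by positivity
  have hδ' : ((1 / 2 : ℝ) ^ m).toNNReal = (1 / 2) ^ m := by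
    rw [Real.toNNReal_pow (by norm_num)]
    congr 1
    rw [Real.toNNReal_div (by norm_num)]
    simp
  have hn := norm_mul_le hU hUi hz hR hcomm hC hδ (by rw [hδ']; exact hper) hint hm1
  have hn' : ‖(2 : ℂ) • (N' * R)‖ < 1 := by
    rw [norm_smul]
    have : ‖(2 : ℂ)‖ = 2 := by simp
    rw [this]
    linarith
  have hu1 : IsUnit (1 - (2 : ℂ) • (N' * R)) := isUnit_one_sub_of_norm_lt_one hn'
  have hcomm'' : ∀ t x, U t (N'' x) = N'' (U t x) := by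
    intro t x
    have e : N'' = N - N' := by rw [hN]; abel
    rw [e, ContinuousLinearMap.sub_apply, ContinuousLinearMap.sub_apply, map_sub, hUN, hcomm]
  have hc'' : Commute N'' R := by
    ext y
    exact (resolvent_comm hR hcomm'' y).symm
  have hu2 : IsUnit (1 - (2 : ℂ) • (N'' * R)) := by
    apply IsNilpotent.isUnit_one_sub
    refine ⟨r, ?_⟩
    rw [smul_pow, hc''.mul_pow, hr, zero_mul, smul_zero]
  have e : (1 - (2 : ℂ) • (N' * R)) * (1 - (2 : ℂ) • (N'' * R)) = 1 - (2 : ℂ) • (N * R) := by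
    have h1 : (N' * R) * (N'' * R) = 0 := by
      rw [mul_assoc, ← mul_assoc R, ← hc''.eq, mul_assoc, ← mul_assoc, h12, zero_mul]
    rw [mul_sub, mul_one, sub_mul, one_mul, smul_mul_smul_comm, h1, smul_zero, sub_zero, hN,
      add_mul, smul_add]
    abel
  rw [← e]
  exact hu1.mul hu2

lemma exists_resolvent_pert (hU : IsC0Semigroup U) (hUi : ∀ t x, ‖U t x‖ = ‖x‖)
    (hUN : ∀ t x, U t (N x) = N (U t x)) {C' : ℝ}
    (hsplit : ∀ m : ℕ, ∃ N' N'' : E →L[ℂ] E, N = N' + N'' ∧ N' * N'' = 0 ∧ N'' * N' = 0 ∧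
      (∃ r : ℕ, N'' ^ r = 0) ∧ ‖N'‖ ≤ C' ∧ (∀ t x, U t (N' x) = N' (U t x)) ∧
      (∀ x, U ((1 / 2) ^ m) (N' x) = N' x) ∧
      ∀ x, ∫ t in (0 : ℝ)..((1 / 2) ^ m), U t.toNNReal (N' x) = 0)
    {z : ℂ} (hz : 0 < z.re) : ∃ R' : E →L[ℂ] E, IsResolventAt (pert U N) z R' := by
  have hM : ∀ t : ℝ≥0, ‖U t‖ ≤ 1 * Real.exp (0 * t) := by
    intro t
    rw [zero_mul, Real.exp_zero, one_mul]
    refine ContinuousLinearMap.opNorm_le_bound _ zero_le_one fun x => ?_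
    rw [hUi, one_mul]
  have hR := isResolventAt_laplaceOp hU hM hz
  exact isResolventAt_pert hU hUi hR (isUnit_one_sub hU hUi hUN hsplit hz hR)

end Pool.Agent.H40.Pert
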